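import Pool.Agent.Helper20.NP.Stmts

set_option autoImplicit false

namespace Pool.Agent.Helper20.NP

open Pool.Agent.Helper21.DN

universe u

open scoped Classical in
theorem pc_SI {G : Type u} [Group G] [Fintype G] (f : G → ℕ) (N : Subgroup G) :
    SI f N = ∑ g, if g ∈ N ∧ g ≠ 1 then f g else 0 := by
  unfold SI
  rw [Finset.sum_filter]

open scoped Classical in
theorem pc_SO {G : Type u} [Group G] [Fintype G] (f : G → ℕ) (N : Subgroup G) :
    SO f N = ∑ g, if g ∉ N then f g else 0 := by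
  unfold SO
  rw [Finset.sum_filter]

open scoped Classical in
theorem pc_S1 {G : Type u} [Group G] [Fintype G] (f : G → ℕ) :
    S1 f = ∑ g, if g ≠ 1 then f g else 0 := by
  unfold S1
  rw [Finset.sum_filter]

theorem pc_split {G : Type u} [Group G] [Fintype G] (f : G → ℕ) (N : Subgroup G) :
    S1 f = SI f N + SO f N := by
  classical
  rw [pc_SI, pc_SO, pc_S1, ← Finset.sum_add_distrib]
  refine Finset.sum_congr rfl fun g _ => ?_
  by_cases h1 : g ∈ N
  · by_cases h2 : g = 1
    · simp [h2]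
    · simp [h1, h2]
  · have h2 : g ≠ 1 := fun h => h1 (h ▸ N.one_mem)
    simp [h1, h2]

open scoped Classical in
theorem pc_card {G : Type u} [Group G] [Fintype G] (N : Subgroup G) :
    (∑ g, if g ∈ N ∧ g ≠ 1 then 1 else 0) + 1 = Nat.card N := by
  have h1 : Nat.card N = ∑ g : G, if g ∈ N then 1 else 0 := by
    rw [Finset.sum_boole, Nat.cast_id, Nat.card_eq_fintype_card, Fintype.card_subtype]
  have h2 : ∑ g : G, (if g = (1 : G) then 1 else 0) = 1 := by simp
  rw [h1]
  nth_rewrite 2 [← h2]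
  rw [← Finset.sum_add_distrib]
  refine Finset.sum_congr rfl fun g _ => ?_
  by_cases h3 : g = 1
  · simp [h3, N.one_mem]
  · by_cases h4 : g ∈ N
    · simp [h3, h4]
    · simp [h3, h4]

theorem pc_SI_ge {G : Type u} [Group G] [Fintype G] (f : G → ℕ) (N : Subgroup G)
    (hf : ∀ g, g ≠ 1 → 1 ≤ f g) : Nat.card N ≤ SI f N + 1 := by
  classical
  rw [← pc_card N, pc_SI]
  apply Nat.add_le_add_right
  refine Finset.sum_le_sum fun g _ => ?_
  by_cases h : g ∈ N ∧ g ≠ 1
  · rw [if_pos h, if_pos h]; exact hf g h.2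
  · rw [if_neg h, if_neg h]

theorem pc_phi {G : Type u} [Group G] [Fintype G] (f : G → ℕ) (N : Subgroup G)
    (hf : ∀ g, g ≠ 1 → 1 ≤ f g) (y : G) (hy : y ∉ N) (hmax : ∀ g, g ∉ N → f g ≤ f y) :
    ((Nat.card N : ℝ) + (SO f N : ℝ)) / (Fintype.card G : ℝ) ≤ phi f (f y) := by
  classical
  have hy1 : y ≠ 1 := fun h => hy (h ▸ N.one_mem)
  have hfy : (1 : ℝ) ≤ (f y : ℝ) := by exact_mod_cast hf y hy1
  have key : (Nat.card N : ℝ) + (SO f N : ℝ) ≤
      (f y : ℝ) + ∑ g ∈ Finset.univ.filter (fun g : G => g ≠ 1), min (f g : ℝ) (f y) := by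
    rw [Finset.sum_filter]
    have h1 : (Nat.card N : ℝ) = (∑ g : G, if g ∈ N ∧ g ≠ 1 then (1 : ℝ) else 0) + 1 := by
      rw [← pc_card N]
      push_cast
      rfl
    have h2 : (SO f N : ℝ) = ∑ g : G, if g ∉ N then (f g : ℝ) else 0 := by
      rw [pc_SO]
      push_cast
      rfl
    have h3 : (∑ g : G, if g ∈ N ∧ g ≠ 1 then (1 : ℝ) else 0) +
        (∑ g : G, if g ∉ N then (f g : ℝ) else 0) ≤
        ∑ g : G, if g ≠ 1 then min (f g : ℝ) (f y) else 0 := by
      rw [← Finset.sum_add_distrib]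
      refine Finset.sum_le_sum fun g _ => ?_
      by_cases h4 : g ∈ N
      · by_cases h5 : g = 1
        · simp [h5, N.one_mem]
        · have h6 : (1 : ℝ) ≤ (f g : ℝ) := by exact_mod_cast hf g h5
          have h7 : ¬ g ∉ N := fun h => h h4
          rw [if_pos ⟨h4, h5⟩, if_neg h7, if_pos h5, add_zero]
          exact le_min h6 hfy
      · have h5 : g ≠ 1 := fun h => h4 (h ▸ N.one_mem)
        have h6 : (f g : ℝ) ≤ (f y : ℝ) := by exact_mod_cast hmax g h4
        have h7 : ¬ (g ∈ N ∧ g ≠ 1) := fun h => h4 h.1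
        rw [if_neg h7, if_pos h4, if_pos h5, zero_add, min_eq_left h6]
    rw [h1, h2]
    linarith
  unfold phi
  apply div_le_div_of_nonneg_right _ (Nat.cast_nonneg _)
  refine key.trans (le_of_eq ?_)
  congr 1

theorem st_PC (hRGF : ST_RGF.{u}) (hTJ : ST_TJ.{u}) (hIND : ST_IND.{u})
    (hCENT : ST_CENT.{u}) : ST_PC.{u} := by
  classical
  intro p _ hp2 G _ _ f hRG hnt hcen
  have hp : p.Prime := Fact.out
  have hPG : IsPGroup p G := by
    obtain ⟨_, _, _, _, _, _, _, _, _, _, _, _, _, _, _, _, _, h, _, _⟩ := hRG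
    exact h
  have hG := hRGF p G f hRG
  have hRF := hG.rf
  obtain ⟨z, hz1, hz2, hz3⟩ := hCENT p G f hPG hnt hRF
  let J : Subgroup G :=
    { carrier := {x | x ^ p = 1}
      mul_mem' := by
        intro x y hx hy
        have hc : Commute x y := by
          have := (Subgroup.mem_center_iff.1 (hcen x hx)) y
          exact this.symm
        change (x * y) ^ p = 1
        rw [hc.mul_pow]
        have hx' : x ^ p = 1 := hx
        have hy' : y ^ p = 1 := hy
        rw [hx', hy', one_mul]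
      one_mem' := one_pow p
      inv_mem' := by
        intro x hx
        change (x⁻¹) ^ p = 1
        have hx' : x ^ p = 1 := hx
        rw [inv_pow, hx', inv_one] }
  have hJm : ∀ x, x ∈ J ↔ x ^ p = 1 := fun x => Iff.rfl
  have hzJ : z ∈ J := by
    rw [hJm, ← hz2]
    exact pow_orderOf_eq_one z
  have hzne : z ≠ 1 := by
    intro h
    rw [h, orderOf_one] at hz2
    exact hp.one_lt.ne hz2
  rcases hTJ p G f hRG J (fun x hx => hcen x hx) (fun x hx => hx) z hzJ hzne hz3 with h | h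
  · exact h
  · exfalso
    have hx0 : 1 ≤ x0 f := by
      rw [← hz3]
      exact hRF.pos z hzne
    have hSI := pc_SI_ge f J hRF.pos
    have hp3 : 3 ≤ p := by
      have := hp.two_le
      omega
    set A : ℤ := (SI f J : ℤ) + x0 f with hA
    set B : ℤ := (SO f J : ℤ) with hB
    set c : ℤ := (Nat.card J : ℤ) with hc
    have hB0 : 0 ≤ B := Int.natCast_nonneg _
    have hc0 : 0 ≤ c := Int.natCast_nonneg _
    have hAc : c ≤ A := by
      rw [hA, hc]
      have : Nat.card J ≤ SI f J + x0 f := by omega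
      exact_mod_cast this
    have hp3' : (3 : ℤ) ≤ p := by exact_mod_cast hp3
    by_cases hJ : ∃ y, y ∉ J
    · -- choose y with f y maximal
      obtain ⟨y0, hy0⟩ := hJ
      obtain ⟨y, hy, hmax⟩ := Finset.exists_max_image
        (Finset.univ.filter fun g : G => g ∉ J) f ⟨y0, by simp [hy0]⟩
      have hyJ : y ∉ J := (Finset.mem_filter.1 hy).2
      have hmax' : ∀ g, g ∉ J → f g ≤ f y := fun g hg =>
        hmax g (Finset.mem_filter.2 ⟨Finset.mem_univ _, hg⟩)
      have h1 := hIND p hp2 G f hRG hcen y hyJ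
      have h2 := pc_phi f J hRF.pos y hyJ hmax'
      have hG0 : (0 : ℝ) < (Fintype.card G : ℝ) := by exact_mod_cast Fintype.card_pos
      have hpr : (0 : ℝ) ≤ (p : ℝ) - 1 := by
        have : (3 : ℝ) ≤ (p : ℝ) := by exact_mod_cast hp3
        linarith
      have h3 : ((p : ℝ) - 1) * (((Nat.card J : ℝ) + (SO f J : ℝ)) / (Fintype.card G : ℝ)) ≤
          Pool.Agent.Helper21.DN.cond f := (mul_le_mul_of_nonneg_left h2 hpr).trans h1
      unfold Pool.Agent.Helper21.DN.cond at h3
      rw [← mul_div_assoc, div_le_div_iff_of_pos_right hG0, pc_split f J] at h3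
      have h4 : ((p : ℤ) - 1) * (c + B) ≤ A + B := by
        have h5 : (((p : ℤ) - 1) * (c + B) : ℤ) ≤ ((SI f J + SO f J : ℕ) : ℤ) + x0 f := by
          rw [hc, hB]
          exact_mod_cast h3
        rw [hA, hB]
        push_cast at h5
        linarith
      have h5 : (p : ℤ) * B ≤ ((p : ℤ) - 1) ^ 2 * (((p : ℤ) - 2) * (c + B)) := by
        have h6 : (p : ℤ) ≤ ((p : ℤ) - 1) ^ 2 * ((p : ℤ) - 2) := by nlinarith
        nlinarith
      have h6 : ((p : ℤ) - 2) * (c + B) ≤ A - c := by linarith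
      have h7 : ((p : ℤ) - 1) ^ 2 * (((p : ℤ) - 2) * (c + B)) ≤ ((p : ℤ) - 1) ^ 2 * (A - c) :=
        mul_le_mul_of_nonneg_left h6 (sq_nonneg _)
      linarith
    · push Not at hJ
      have hB1 : B = 0 := by
        rw [hB, pc_SO]
        have : ∀ g : G, (if g ∉ J then f g else 0) = 0 := fun g => if_neg (fun h => h (hJ g))
        simp [this]
      rw [hB1, mul_zero] at h
      have : 0 ≤ ((p : ℤ) - 1) ^ 2 * (A - c) := mul_nonneg (sq_nonneg _) (by linarith)
      linarith

end Pool.Agent.Helper20.NP
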