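import Pool.Agent.Helper20.NP.Stmts

set_option autoImplicit false

namespace Pool.Agent.Helper20.NP

open Pool.Agent.Helper21.DN

universe u

theorem st_RS (hD : ST_DIFE.{u}) (hB : ST_BCH.{u}) : ST_RS.{u} := by
  intro p _ G _ _ f hRG H _
  obtain ⟨k, K, L, _, _, _, _, _, _, _, _, κ, v, D, e, j, hR, hP, hDif, hf⟩ := hRG
  have hPL : IsPGroup p (L ≃ₐ[K] L) := IsPGroup.of_equiv hP j.symm
  let E : IntermediateField K L := IntermediateField.fixedField (H.map j.symm.toMonoidHom)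
  have hfix : E.fixingSubgroup = H.map j.symm.toMonoidHom :=
    IntermediateField.fixingSubgroup_fixedField _
  obtain ⟨e', he'⟩ := hD p k K L κ v hR hPL D e hDif E
  let j1 : (L ≃ₐ[E] L) ≃* E.fixingSubgroup := (IntermediateField.fixingSubgroupEquiv E).symm
  let j2 : E.fixingSubgroup ≃* (H.map j.symm.toMonoidHom : Subgroup (L ≃ₐ[K] L)) :=
    MulEquiv.subgroupCongr hfix
  let j3 : (H.map j.symm.toMonoidHom : Subgroup (L ≃ₐ[K] L)) ≃* H :=
    (MulEquiv.subgroupMap j.symm H).symm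
  refine ⟨k, E, L, inferInstance, inferInstance, inferInstance, inferInstance, inferInstance,
    inferInstance, inferInstance, inferInstance, (algebraMap K E).comp κ, v, D, e',
    (j1.trans j2).trans j3, hB k K L κ v hR E, hP.to_subgroup H, he', ?_⟩
  intro σ hσ
  have h1 : ((((j1.trans j2).trans j3) σ : H) : G) = j ((j1 σ : E.fixingSubgroup) : L ≃ₐ[K] L) := by
    have h2 : j3.symm (((j1.trans j2).trans j3) σ) = j2 (j1 σ) := by
      simp only [MulEquiv.trans_apply, MulEquiv.symm_apply_apply]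
    have h3 : ((j3.symm (((j1.trans j2).trans j3) σ) :
        (H.map j.symm.toMonoidHom : Subgroup (L ≃ₐ[K] L))) : L ≃ₐ[K] L) =
        j.symm ((((j1.trans j2).trans j3) σ : H) : G) := rfl
    have h4 : ((j2 (j1 σ) : (H.map j.symm.toMonoidHom : Subgroup (L ≃ₐ[K] L))) : L ≃ₐ[K] L) =
        ((j1 σ : E.fixingSubgroup) : L ≃ₐ[K] L) := rfl
    rw [← h4, ← h2, h3, MulEquiv.apply_symm_apply]
  have h5 : ((j1 σ : E.fixingSubgroup) : L ≃ₐ[K] L) ≠ 1 := by
    intro h
    apply hσ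
    have h6 : j1 σ = 1 := Subtype.ext h
    exact (MulEquiv.map_eq_one_iff j1).1 h6
  have h7 : (⇑((j1 σ : E.fixingSubgroup) : L ≃ₐ[K] L) : L → L) = ⇑σ := rfl
  change f ((((j1.trans j2).trans j3) σ : H) : G) = _
  rw [h1, hf _ h5, h7]

end Pool.Agent.Helper20.NP
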